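import Pool.Agent.N38.ISO.Def

/-!
# The two classes

Linear orders (one isomorphism type in every size) and sets with a distinguished subset of
at most one element (at most two isomorphism types in every size).
-/

set_option autoImplicit false

open FirstOrder FirstOrder.Language

namespace Pool.Agent.N38.ISO

/-- One binary relation symbol. -/
def ordSig : Sig := ⟨1, fun _ => 2, 0, Fin.elim0⟩

/-- The binary relation symbol. -/
def leS : ordSig.lang.Relations 2 := ⟨(0 : Fin 1), rfl⟩

/-- The sentence saying that the binary relation is a (reflexive) linear order: total,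
antisymmetric and transitive. -/
def ordφ : ordSig.lang.Sentence :=
  ∀' ∀' ∀' (((leS.boundedFormula₂ (&0) (&1)) ⊔ (leS.boundedFormula₂ (&1) (&0))) ⊓
    (((leS.boundedFormula₂ (&0) (&1)) ⊓ (leS.boundedFormula₂ (&1) (&0))) ⟹ ((&0) =' (&1))) ⊓
    (((leS.boundedFormula₂ (&0) (&1)) ⊓ (leS.boundedFormula₂ (&1) (&2))) ⟹
      (leS.boundedFormula₂ (&0) (&2))))

/-- The class of finite linear orders. -/
def Ord : FOClass := ⟨ordSig, ordφ⟩

/-- One unary relation symbol. -/
def uniSig : Sig := ⟨1, fun _ => 1, 0, Fin.elim0⟩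

/-- The unary relation symbol. -/
def uniS : uniSig.lang.Relations 1 := ⟨(0 : Fin 1), rfl⟩

/-- The sentence saying that at most one element satisfies the unary relation. -/
def uniφ : uniSig.lang.Sentence :=
  ∀' ∀' (((uniS.boundedFormula₁ (&0)) ⊓ (uniS.boundedFormula₁ (&1))) ⟹ ((&0) =' (&1)))

/-- The class of finite sets with a distinguished subset of at most one element. -/
def Uni : FOClass := ⟨uniSig, uniφ⟩

/-- The relation of a table over the signature of `Ord`. -/
def ordR {n : ℕ} (A : Tab ordSig n) (x y : Fin n) : Prop := A.rel (0 : Fin 1) ![x, y] = true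

/-- The subset of a table over the signature of `Uni`. -/
def uniP {n : ℕ} (A : Tab uniSig n) (x : Fin n) : Prop := A.rel (0 : Fin 1) ![x] = true

theorem ord_mem {n : ℕ} (A : Tab ordSig n) :
    (@Sentence.Realize ordSig.lang (Fin n) A.str ordφ) ↔
    ∀ x y z : Fin n, (ordR A x y ∨ ordR A y x) ∧ (ordR A x y ∧ ordR A y x → x = y) ∧
      (ordR A x y ∧ ordR A y z → ordR A x z) := by
  let _ := A.str
  unfold ordφ Sentence.Realize Formula.Realize
  simp only [BoundedFormula.realize_all, BoundedFormula.realize_imp, BoundedFormula.realize_inf,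
    BoundedFormula.realize_sup,
    BoundedFormula.realize_bdEqual, BoundedFormula.realize_rel₂, and_assoc]
  have e : ∀ (x y : Fin n) (f : Fin 2 → Fin n), f 0 = x → f 1 = y → 
      (Structure.RelMap leS f ↔ ordR A x y) := by
    intro x y f h1 h2
    have : f = ![x, y] := by
      funext j
      fin_cases j <;> assumption
    subst this
    show A.rel _ _ = true ↔ A.rel _ _ = true
    rfl
  constructor
  · intro h x y z
    obtain ⟨h1, h2, h3⟩ := h x y z
    refine ⟨?_, ?_, ?_⟩
    · rcases h1 with h1 | h1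
      · left; exact (e x y _ rfl rfl).1 h1
      · right; exact (e y x _ rfl rfl).1 h1
    · rintro ⟨a, b⟩
      exact h2 ⟨(e x y _ rfl rfl).2 a, (e y x _ rfl rfl).2 b⟩
    · rintro ⟨a, b⟩
      exact (e x z _ rfl rfl).1 (h3 ⟨(e x y _ rfl rfl).2 a, (e y z _ rfl rfl).2 b⟩)
  · intro h x y z
    obtain ⟨h1, h2, h3⟩ := h x y z
    refine ⟨?_, ?_, ?_⟩
    · rcases h1 with h1 | h1
      · left; exact (e x y _ rfl rfl).2 h1
      · right; exact (e y x _ rfl rfl).2 h1
    · rintro ⟨a, b⟩
      exact h2 ⟨(e x y _ rfl rfl).1 a, (e y x _ rfl rfl).1 b⟩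
    · rintro ⟨a, b⟩
      exact (e x z _ rfl rfl).2 (h3 ⟨(e x y _ rfl rfl).1 a, (e y z _ rfl rfl).1 b⟩)

/-- An isomorphism of linear orders as tables. -/
theorem ord_iso {n : ℕ} (A B : Tab ordSig n) (e : Fin n ≃ Fin n)
    (h : ∀ x y, ordR B (e x) (e y) ↔ ordR A x y) : Iso A B := by
  let _ := A.str
  refine ⟨@FirstOrder.Language.Equiv.mk ordSig.lang (Fin n) (Fin n) A.str B.str e ?_ ?_⟩
  · intro k f
    exact f.1.elim0
  · intro k r x
    obtain ⟨i, rfl⟩ := r
    have hi : i = (0 : Fin 1) := (Fin.eq_zero (i : Fin 1))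
    subst hi
    have hx : x = (![x (0 : Fin 2), x (1 : Fin 2)] : Fin 2 → Fin n) := by
      funext j
      change Fin 2 at j
      fin_cases j <;> rfl
    have := h (x (0 : Fin 2)) (x (1 : Fin 2))
    rw [hx]
    have h2 : (e ∘ (![x (0 : Fin 2), x (1 : Fin 2)] : Fin 2 → Fin n)) = ![e (x (0 : Fin 2)), e (x (1 : Fin 2))] := by
      funext j
      fin_cases j <;> rfl
    show B.rel (0 : Fin 1) (fun j => (e ∘ (![x (0 : Fin 2), x (1 : Fin 2)] : Fin 2 → Fin n)) j) = true ↔ 
      A.rel (0 : Fin 1) (fun j => (![x (0 : Fin 2), x (1 : Fin 2)] : Fin 2 → Fin n) j) = true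
    rw [h2]
    exact this

theorem uni_iso {n : ℕ} (A B : Tab uniSig n) (e : Fin n ≃ Fin n)
    (h : ∀ x, uniP B (e x) ↔ uniP A x) : Iso A B := by
  let _ := A.str
  refine ⟨@FirstOrder.Language.Equiv.mk uniSig.lang (Fin n) (Fin n) A.str B.str e ?_ ?_⟩
  · intro k f
    exact f.1.elim0
  · intro k r x
    obtain ⟨i, rfl⟩ := r
    have hi : i = (0 : Fin 1) := (Fin.eq_zero (i : Fin 1))
    subst hi
    have hx : x = (![x (0 : Fin 1)] : Fin 1 → Fin n) := by
      funext j
      change Fin 1 at j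
      fin_cases j; rfl
    have := h (x (0 : Fin 1))
    rw [hx]
    have h2 : (e ∘ (![x (0 : Fin 1)] : Fin 1 → Fin n)) = ![e (x (0 : Fin 1))] := by
      funext j
      fin_cases j; rfl
    show B.rel (0 : Fin 1) (fun j => (e ∘ (![x (0 : Fin 1)] : Fin 1 → Fin n)) j) = true ↔ 
      A.rel (0 : Fin 1) (fun j => (![x (0 : Fin 1)] : Fin 1 → Fin n) j) = true
    rw [h2]
    exact this

theorem uni_of_iso {n : ℕ} (A B : Tab uniSig n) (h : Iso A B) :
    ∃ e : Fin n ≃ Fin n, ∀ x, uniP B (e x) ↔ uniP A x := by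
  obtain ⟨f⟩ := h
  refine ⟨@FirstOrder.Language.Equiv.toEquiv uniSig.lang (Fin n) (Fin n) A.str B.str f, fun x => ?_⟩
  have := @FirstOrder.Language.Equiv.map_rel' uniSig.lang (Fin n) (Fin n) A.str B.str f 1 uniS ![x]
  have h2 : ((@FirstOrder.Language.Equiv.toEquiv uniSig.lang (Fin n) (Fin n) A.str B.str f) ∘ (![x] : Fin 1 → Fin n)) = ![(@FirstOrder.Language.Equiv.toEquiv uniSig.lang (Fin n) (Fin n) A.str B.str f) x] := by
      funext j
      fin_cases j; rfl
  have h3 : B.rel (0 : Fin 1) (fun j => ((@FirstOrder.Language.Equiv.toEquiv uniSig.lang (Fin n) (Fin n) A.str B.str f) ∘ (![x] : Fin 1 → Fin n)) j) = true ↔ 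
      A.rel (0 : Fin 1) (fun j => (![x] : Fin 1 → Fin n) j) = true := this
  rw [h2] at h3
  exact h3

theorem uni_mem {n : ℕ} (A : Tab uniSig n) :
    (@Sentence.Realize uniSig.lang (Fin n) A.str uniφ) ↔
    ∀ x y : Fin n, uniP A x ∧ uniP A y → x = y := by
  let _ := A.str
  unfold uniφ Sentence.Realize Formula.Realize
  simp only [BoundedFormula.realize_all, BoundedFormula.realize_imp, BoundedFormula.realize_inf,
    BoundedFormula.realize_bdEqual, BoundedFormula.realize_rel₁]
  rfl

end Pool.Agent.N38.ISO
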