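import Pool.Agent.N38.ISO.Cls

/-!
# The number of isomorphism types of the two classes
-/

set_option autoImplicit false

open FirstOrder FirstOrder.Language

namespace Pool.Agent.N38.ISO

/-- A linear order on a finite type is the order of `Fin n`. -/
theorem ord_aux {n : ℕ} {α : Type} [Fintype α] (hα : Fintype.card α = n) (r : α → α → Prop)
    (h1 : ∀ x y, r x y ∨ r y x) (h2 : ∀ x y, r x y → r y x → x = y)
    (h3 : ∀ x y z, r x y → r y z → r x z) :
    ∃ e : α ≃ Fin n, ∀ x y, r x y ↔ e x ≤ e y := by
  classical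
  let O : LinearOrder α :=
    { le := r
      le_refl := fun x => (h1 x x).elim id id
      le_trans := h3
      le_antisymm := h2
      le_total := h1
      toDecidableLE := Classical.decRel _ }
  let f : Fin n ≃o α := Fintype.orderIsoFinOfCardEq α hα
  exact ⟨f.toEquiv.symm, fun x y => (f.symm.le_iff_le (x := x) (y := y)).symm⟩

/-- Any two linear orders of the same finite size are isomorphic. -/
theorem ord_all {n : ℕ} (A B : Ord.Mem n) : Iso A.1 B.1 := by
  have mk : ∀ C : Ord.Mem n, ∃ e : Fin n ≃ Fin n, ∀ x y, ordR C.1 x y ↔ e x ≤ e y := by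
    intro C
    have hC := (ord_mem C.1).1 C.2
    exact ord_aux (Fintype.card_fin n) (ordR C.1) (fun x y => (hC x y x).1)
      (fun x y a b => (hC x y x).2.1 ⟨a, b⟩) (fun x y z a b => (hC x y z).2.2 ⟨a, b⟩)
  obtain ⟨e, he⟩ := mk A
  obtain ⟨f, hf⟩ := mk B
  refine ord_iso A.1 B.1 (e.trans f.symm) (fun x y => ?_)
  rw [hf, he]
  simp

/-- The table of the natural order. -/
def ordTab (n : ℕ) : Tab ordSig n :=
  ⟨fun _ x => decide (x (0 : Fin 2) ≤ x (1 : Fin 2)), fun i => i.elim0⟩

theorem ordTab_R {n : ℕ} (x y : Fin n) : ordR (ordTab n) x y ↔ x ≤ y := by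
  show decide (_ ≤ _) = true ↔ _
  simp

/-- The natural order is a member. -/
def ordMem (n : ℕ) : Ord.Mem n :=
  ⟨ordTab n, (ord_mem _).2 (fun x y z => by
    simp only [ordTab_R]
    exact ⟨le_total x y, fun h => le_antisymm h.1 h.2, fun h => h.1.trans h.2⟩)⟩

/-- There is exactly one isomorphism type of linear orders with `n` elements. -/
theorem typ_ord (n : ℕ) : typ Ord n = 1 := by
  unfold typ
  rw [Nat.card_eq_one_iff_unique]
  refine ⟨⟨fun a b => ?_⟩, ⟨Quotient.mk _ (ordMem n)⟩⟩
  induction a using Quotient.inductionOn with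
  | h a =>
    induction b using Quotient.inductionOn with
    | h b => exact Quotient.sound (ord_all a b)

/-- The table of a subset. -/
noncomputable def uniTab {n : ℕ} (S : Set (Fin n)) : Tab uniSig n :=
  open Classical in ⟨fun _ x => decide (x (0 : Fin 1) ∈ S), fun i => i.elim0⟩

theorem uniTab_P {n : ℕ} (S : Set (Fin n)) (x : Fin n) : uniP (uniTab S) x ↔ x ∈ S := by
  classical
  show decide (_ ∈ S) = true ↔ _
  simp

/-- Sets with the empty subset. -/
noncomputable def uniE (n : ℕ) : Uni.Mem n :=
  ⟨uniTab ∅, (uni_mem _).2 (fun x y h => by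
    have := (uniTab_P (∅ : Set (Fin n)) x).1 h.1
    simp at this)⟩

/-- Sets with a one element subset. -/
noncomputable def uniO {n : ℕ} (a : Fin n) : Uni.Mem n :=
  ⟨uniTab {a}, (uni_mem _).2 (fun x y h => by
    have h1 := (uniTab_P ({a} : Set (Fin n)) x).1 h.1
    have h2 := (uniTab_P ({a} : Set (Fin n)) y).1 h.2
    rw [Set.mem_singleton_iff] at h1 h2
    rw [h1, h2])⟩

/-- Two members of `Uni` are isomorphic iff both or none of the subsets are empty. -/
theorem uni_iff {n : ℕ} (A B : Uni.Mem n) :
    Iso A.1 B.1 ↔ ((∃ x, uniP A.1 x) ↔ (∃ x, uniP B.1 x)) := by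
  constructor
  · intro h
    obtain ⟨e, he⟩ := uni_of_iso A.1 B.1 h
    constructor
    · rintro ⟨x, hx⟩
      exact ⟨e x, (he x).2 hx⟩
    · rintro ⟨x, hx⟩
      refine ⟨e.symm x, (he _).1 ?_⟩
      rwa [Equiv.apply_symm_apply]
  · intro h
    have hA := (uni_mem A.1).1 A.2
    have hB := (uni_mem B.1).1 B.2
    by_cases hx : ∃ x, uniP A.1 x
    · obtain ⟨y, hy⟩ := h.1 hx
      obtain ⟨x, hx⟩ := hx
      refine uni_iso A.1 B.1 (Equiv.swap x y) (fun z => ?_)
      constructor
      · intro hz
        have : Equiv.swap x y z = y := hB _ _ ⟨hz, hy⟩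
        have h2 : z = x := by
          have := congrArg (Equiv.swap x y) this
          simpa using this
        rw [h2]; exact hx
      · intro hz
        have : z = x := hA _ _ ⟨hz, hx⟩
        rw [this, Equiv.swap_apply_left]
        exact hy
    · have hy : ¬ ∃ x, uniP B.1 x := fun h' => hx (h.2 h')
      push Not at hx hy
      exact uni_iso A.1 B.1 (Equiv.refl _) (fun z => iff_of_false (hy _) (hx _))

/-- There are at most two isomorphism types in `Uni`. -/
theorem typ_uni_le (n : ℕ) : typ Uni n ≤ 2 := by
  classical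
  unfold typ
  have : Function.Injective (fun q : Quotient (isoSetoid Uni n) =>
      Quotient.liftOn q (fun A => decide (∃ x, uniP A.1 x)) (fun A B h => by
        have := (uni_iff A B).1 h
        simp only [this])) := by
    intro a b hab
    induction a using Quotient.inductionOn with
    | h a =>
      induction b using Quotient.inductionOn with
      | h b =>
        apply Quotient.sound
        have : decide (∃ x, uniP a.1 x) = decide (∃ x, uniP b.1 x) := hab
        exact (uni_iff a b).2 (decide_eq_decide.1 this)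
  have h := Nat.card_le_card_of_injective _ this
  simpa using h

end Pool.Agent.N38.ISO
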