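import Mathlib

/-!
# Isomorphism testing of first-order definable classes of finite structures

Definitions for MP_28ce77_lc: finite signatures, structures with universe `{1, .., n}` given
by full tables, first-order definable classes, the number of isomorphism types, multitape
Turing machines reading two tables, their worst case running time, and the probe model.
-/

set_option autoImplicit false

open FirstOrder

namespace Pool.Agent.N38.ISO

/-- A finite signature: finitely many relation symbols and finitely many function symbols,
with their arities. Constant symbols are the function symbols of arity `0`. -/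
structure Sig where
  /-- number of relation symbols -/
  nrel : ℕ
  /-- arities of the relation symbols -/
  rar : Fin nrel → ℕ
  /-- number of function symbols -/
  nfun : ℕ
  /-- arities of the function symbols -/
  far : Fin nfun → ℕ

/-- The first-order language of a signature. -/
def Sig.lang (σ : Sig) : FirstOrder.Language.{0, 0} where
  Functions k := {i : Fin σ.nfun // σ.far i = k}
  Relations k := {i : Fin σ.nrel // σ.rar i = k}

/-- Full tables of all symbols, over the universe `Fin n` with `n` elements. -/
@[ext] structure Tab (σ : Sig) (n : ℕ) where
  /-- tables of the relations -/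
  rel : ∀ i : Fin σ.nrel, (Fin (σ.rar i) → Fin n) → Bool
  /-- tables of the functions -/
  fn : ∀ i : Fin σ.nfun, (Fin (σ.far i) → Fin n) → Fin n

/-- The structure with universe `Fin n` given by tables. -/
@[reducible] def Tab.str {σ : Sig} {n : ℕ} (A : Tab σ n) : σ.lang.Structure (Fin n) where
  funMap := fun {_} f x => A.fn f.1 (fun j => x (Fin.cast f.2 j))
  RelMap := fun {_} r x => A.rel r.1 (fun j => x (Fin.cast r.2 j)) = true

/-- Isomorphism of the structures given by two tables (Mathlib's `Language.Equiv`). -/
def Iso {σ : Sig} {n : ℕ} (A B : Tab σ n) : Prop :=
  Nonempty (@FirstOrder.Language.Equiv σ.lang (Fin n) (Fin n) A.str B.str)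

/-- A first-order definable class of structures of finite type: a finite signature with one
first-order sentence. -/
structure FOClass where
  /-- the signature -/
  σ : Sig
  /-- the defining sentence -/
  φ : σ.lang.Sentence

/-- The members of the class with universe `Fin n`. -/
def FOClass.Mem (L : FOClass) (n : ℕ) : Type :=
  {A : Tab L.σ n // @FirstOrder.Language.Sentence.Realize L.σ.lang (Fin n) A.str L.φ}

/-- Isomorphism as an equivalence relation on the members with universe `Fin n`. -/
def isoSetoid (L : FOClass) (n : ℕ) : Setoid (L.Mem n) where
  r A B := Iso A.1 B.1
  iseqv := by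
    refine ⟨fun A => ?_, fun {A B} h => ?_, fun {A B C} h g => ?_⟩
    · let _ := A.1.str
      exact ⟨FirstOrder.Language.Equiv.refl L.σ.lang (Fin n)⟩
    · obtain ⟨e⟩ := h
      exact ⟨@FirstOrder.Language.Equiv.symm L.σ.lang (Fin n) (Fin n) A.1.str B.1.str e⟩
    · obtain ⟨e⟩ := h
      obtain ⟨e'⟩ := g
      exact ⟨@FirstOrder.Language.Equiv.comp L.σ.lang (Fin n) (Fin n) A.1.str B.1.str
        (Fin n) C.1.str e' e⟩

/-- `f_L(n)`: the number of isomorphism types of `n`-element members of `L`. -/
noncomputable def typ (L : FOClass) (n : ℕ) : ℕ := Nat.card (Quotient (isoSetoid L n))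

/-! ### The input word -/

/-- The input alphabet. -/
inductive Sym
  | zero
  | one
  | sep
  deriving DecidableEq

/-- A bit. -/
def bit : Bool → Sym
  | true => Sym.one
  | false => Sym.zero

/-- A natural number in unary, followed by a separator. -/
def una (a : ℕ) : List Sym := List.replicate a Sym.one ++ [Sym.sep]

/-- The table of a relation of arity `k`: the `n ^ k` truth values in the standard order of
the tuples, followed by a separator. -/
def relCode {n k : ℕ} (R : (Fin k → Fin n) → Bool) : List Sym :=
  List.ofFn (fun j : Fin (n ^ k) => bit (R (finFunctionFinEquiv.symm j))) ++ [Sym.sep]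

/-- The table of a function of arity `k`: the `n ^ k` values in the standard order of the
tuples, each in unary, followed by a separator. -/
def funCode {n k : ℕ} (F : (Fin k → Fin n) → Fin n) : List Sym :=
  (List.ofFn (fun j : Fin (n ^ k) => una (F (finFunctionFinEquiv.symm j) : ℕ))).flatten ++
    [Sym.sep]

/-- The code of a structure: the number of elements, the tables of the relations and the
tables of the functions. -/
def code {σ : Sig} {n : ℕ} (A : Tab σ n) : List Sym :=
  una n ++ (List.ofFn (fun i => relCode (A.rel i))).flatten ++
    (List.ofFn (fun i => funCode (A.fn i))).flatten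

/-- The input word for a pair of structures with `n` elements. -/
def input {σ : Sig} {n : ℕ} (A B : Tab σ n) : List Sym := code A ++ code B

/-! ### Multitape Turing machines -/

/-- Moves of a head. -/
inductive Move
  | left
  | stay
  | right

/-- The displacement of a move. -/
def Move.d : Move → ℤ
  | left => -1
  | stay => 0
  | right => 1

/-- A deterministic Turing machine with `k + 1` two-way infinite tapes, finitely many states
and a finite tape alphabet; tape `0` holds the input at the start. -/
structure TM where
  /-- states -/
  Q : Type
  /-- tape alphabet -/
  Γ : Type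
  /-- finitely many states -/
  finQ : Finite Q
  /-- finite tape alphabet -/
  finΓ : Finite Γ
  /-- number of work tapes -/
  k : ℕ
  /-- blank symbol -/
  blank : Γ
  /-- the input symbols as tape symbols -/
  emb : Sym → Γ
  /-- initial state -/
  start : Q
  /-- halting states with their output -/
  halt : Q → Option Bool
  /-- transition: new state, written symbols, moves -/
  δ : Q → (Fin (k + 1) → Γ) → Q × (Fin (k + 1) → Γ) × (Fin (k + 1) → Move)

/-- Configurations: state, contents of the tapes, positions of the heads. -/
structure Conf (M : TM) where
  /-- state -/
  q : M.Q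
  /-- tape contents -/
  tape : Fin (M.k + 1) → ℤ → M.Γ
  /-- head positions -/
  head : Fin (M.k + 1) → ℤ

/-- The symbols under the heads. -/
def Conf.read {M : TM} (c : Conf M) : Fin (M.k + 1) → M.Γ := fun i => c.tape i (c.head i)

/-- One step; halting configurations do not change. -/
noncomputable def step (M : TM) (c : Conf M) : Conf M :=
  match M.halt c.q with
  | some _ => c
  | none =>
    let r := M.δ c.q c.read
    { q := r.1
      tape := fun i z => if z = c.head i then r.2.1 i else c.tape i z
      head := fun i => c.head i + (r.2.2 i).d }

/-- The tape holding a word at the positions `0, 1, ..`, blank elsewhere. -/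
def wordTape (M : TM) (w : List Sym) (z : ℤ) : M.Γ :=
  if 0 ≤ z then ((w[z.toNat]?).map M.emb).getD M.blank else M.blank

/-- The initial configuration with input `w` on tape `0` and all heads at position `0`. -/
def init (M : TM) (w : List Sym) : Conf M where
  q := M.start
  tape := fun i z => if i = 0 then wordTape M w z else M.blank
  head := fun _ => 0

/-- The configuration after `t` steps on input `w`. -/
noncomputable def run (M : TM) (w : List Sym) (t : ℕ) : Conf M := (step M)^[t] (init M w)

/-- On input `w` the machine has halted with output `b` after at most `t` steps. -/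
def HaltsWith (M : TM) (w : List Sym) (t : ℕ) (b : Bool) : Prop :=
  M.halt (run M w t).q = some b

/-- `M` is an isomorphism testing algorithm for the class `L`: on every pair of members with
the same universe it halts and says whether they are isomorphic. -/
def IsTest (L : FOClass) (M : TM) : Prop :=
  ∀ (n : ℕ) (A B : L.Mem n), ∃ (t : ℕ) (b : Bool),
    HaltsWith M (input A.1 B.1) t b ∧ (b = true ↔ Iso A.1 B.1)

/-- The number of steps before halting on input `w`. -/
noncomputable def steps (M : TM) (w : List Sym) : ℕ :=
  sInf {t : ℕ | ∃ b : Bool, HaltsWith M w t b}

/-- `m_L(M, n)`: the largest number of steps of `M` on a pair of `n`-element members. -/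
noncomputable def worst (L : FOClass) (M : TM) (n : ℕ) : ℕ :=
  sSup {s : ℕ | ∃ A B : L.Mem n, s = steps M (input A.1 B.1)}

/-! ### The probe model

A lower bound for every sequential model: an algorithm which may do anything for free except
looking at the tables; for each `n` it is an arbitrary decision tree and one step looks at
one entry of one of the tables of one of the two structures. -/

/-- Entries of the tables of a structure with universe `Fin n`. -/
inductive Cell (σ : Sig) (n : ℕ)
  | rel (i : Fin σ.nrel) (x : Fin (σ.rar i) → Fin n)
  | fn (i : Fin σ.nfun) (x : Fin (σ.far i) → Fin n)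

/-- The value of an entry: a bit or an element. -/
def Tab.val {σ : Sig} {n : ℕ} (A : Tab σ n) : Cell σ n → Bool ⊕ Fin n
  | Cell.rel i x => Sum.inl (A.rel i x)
  | Cell.fn i x => Sum.inr (A.fn i x)

/-- Decision trees: give an answer or look at an entry of the first (`true`) or second
(`false`) structure and continue according to its value. -/
inductive Tree (σ : Sig) (n : ℕ)
  | out (b : Bool)
  | ask (which : Bool) (c : Cell σ n) (next : Bool ⊕ Fin n → Tree σ n)

/-- The answer of a tree on a pair. -/
def Tree.ans {σ : Sig} {n : ℕ} (A B : Tab σ n) : Tree σ n → Bool
  | Tree.out b => b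
  | Tree.ask w c next => (next ((if w then A else B).val c)).ans A B

/-- The number of entries looked at. -/
def Tree.cost {σ : Sig} {n : ℕ} (A B : Tab σ n) : Tree σ n → ℕ
  | Tree.out _ => 0
  | Tree.ask w c next => (next ((if w then A else B).val c)).cost A B + 1

/-- A probe algorithm: one decision tree for every size. It is an isomorphism test for `L`
if it is correct on all pairs of members. -/
def IsProbeTest (L : FOClass) (T : ∀ n, Tree L.σ n) : Prop :=
  ∀ (n : ℕ) (A B : L.Mem n), (T n).ans A.1 B.1 = true ↔ Iso A.1 B.1

/-- The largest number of entries looked at on a pair of `n`-element members. -/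
noncomputable def probes (L : FOClass) (T : ∀ n, Tree L.σ n) (n : ℕ) : ℕ :=
  sSup {s : ℕ | ∃ A B : L.Mem n, s = (T n).cost A.1 B.1}

end Pool.Agent.N38.ISO
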