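import Pool.Agent.N38.ISO.Tur

/-!
# The probe model: a decision tree with fewer than `n` probes cannot test `Uni`
-/

set_option autoImplicit false

namespace Pool.Agent.N38.ISO

/-- The entries looked at. -/
def Tree.seen {σ : Sig} {n : ℕ} (A B : Tab σ n) : Tree σ n → List (Bool × Cell σ n)
  | Tree.out _ => []
  | Tree.ask w c next => (w, c) :: (next ((if w then A else B).val c)).seen A B

theorem seen_length {σ : Sig} {n : ℕ} (A B : Tab σ n) (T : Tree σ n) :
    (T.seen A B).length = T.cost A B := by
  induction T with
  | out b => rfl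
  | ask w c next ih =>
    show ((next ((if w then A else B).val c)).seen A B).length + 1 = _
    rw [ih]
    rfl

/-- The answer depends only on the entries looked at. -/
theorem ans_congr {σ : Sig} {n : ℕ} (A A' B : Tab σ n) (T : Tree σ n)
    (h : ∀ c, (true, c) ∈ T.seen A B → A'.val c = A.val c) : T.ans A' B = T.ans A B := by
  induction T with
  | out b => rfl
  | ask w c next ih =>
    have e : (if w then A' else B).val c = (if w then A else B).val c := by
      cases w with
      | false => rfl
      | true => exact h c (List.mem_cons_self)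
    show (next ((if w then A' else B).val c)).ans A' B = (next ((if w then A else B).val c)).ans A B
    rw [e]
    exact ih _ (fun c' hc' => h c' (List.mem_cons_of_mem _ hc'))

theorem uniTab_rel {n : ℕ} (S : Set (Fin n)) (i : Fin 1) (x : Fin 1 → Fin n) :
    (uniTab S).rel i x = true ↔ x (0 : Fin 1) ∈ S := by
  classical
  show decide (_ ∈ S) = true ↔ _
  simp

/-- Every probe algorithm testing isomorphism in `Uni` looks at `n` entries on the pair of
two structures with empty subset. -/
theorem uni_probe {T : ∀ n, Tree Uni.σ n} (hT : IsProbeTest Uni T) (n : ℕ) :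
    n ≤ (T n).cost (uniE n).1 (uniE n).1 := by
  classical
  by_contra hlt
  push Not at hlt
  rw [← seen_length] at hlt
  let f : Bool × Cell Uni.σ n → Option (Fin n) := fun p => match p.2 with
    | Cell.rel i x => some (x (0 : Fin 1))
    | Cell.fn i x => i.elim0
  have hex : ∃ a : Fin n, some a ∉ (((T n).seen (uniE n).1 (uniE n).1).map f) := by
    by_contra hall
    push Not at hall
    have : (Finset.univ.map ⟨(some : Fin n → Option (Fin n)), Option.some_injective _⟩) ⊆
        (((T n).seen (uniE n).1 (uniE n).1).map f).toFinset := by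
      intro o ho
      simp only [Finset.mem_map, Finset.mem_univ, true_and, Function.Embedding.coeFn_mk] at ho
      obtain ⟨a, rfl⟩ := ho
      exact List.mem_toFinset.2 (hall a)
    have h1 := Finset.card_le_card this
    rw [Finset.card_map, Finset.card_univ, Fintype.card_fin] at h1
    have h2 := List.toFinset_card_le (((T n).seen (uniE n).1 (uniE n).1).map f)
    rw [List.length_map] at h2
    omega
  obtain ⟨a, ha⟩ := hex
  have e : (T n).ans (uniO a).1 (uniE n).1 = (T n).ans (uniE n).1 (uniE n).1 := by
    apply ans_congr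
    intro c hc
    have hca : f (true, c) ≠ some a := fun h => ha (h ▸ List.mem_map_of_mem hc)
    cases c with
    | fn i x => exact i.elim0
    | rel i x =>
      have hx : x (0 : Fin 1) ≠ a := fun h => hca (congrArg some h)
      show Sum.inl ((uniTab {a}).rel i x) = Sum.inl ((uniTab ∅).rel i x)
      refine congrArg Sum.inl (Bool.eq_iff_iff.2 ?_)
      exact (uniTab_rel {a} i x).trans (Iff.trans (by simp [hx]) (uniTab_rel ∅ i x).symm)
  have h1 := (hT n (uniE n) (uniE n)).2 ((uni_iff _ _).2 Iff.rfl)
  rw [← e] at h1
  have h2 := (uni_iff _ _).1 ((hT n (uniO a) (uniE n)).1 h1)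
  obtain ⟨x, hx⟩ := h2.1 ⟨a, (uniTab_P _ _).2 rfl⟩
  exact (uniTab_P _ _).1 hx

theorem cost_le_probes {L : FOClass} {T : ∀ n, Tree L.σ n} {n : ℕ} (A B : L.Mem n) :
    (T n).cost A.1 B.1 ≤ probes L T n := by
  apply le_csSup
  · have : {s : ℕ | ∃ A B : L.Mem n, s = (T n).cost A.1 B.1} =
        Set.range (fun p : L.Mem n × L.Mem n => (T n).cost p.1.1 p.2.1) := by
      ext s
      simp only [Set.mem_ofPred_eq, Set.mem_range, Prod.exists]
      constructor
      · rintro ⟨A, B, h⟩; exact ⟨A, B, h.symm⟩
      · rintro ⟨A, B, h⟩; exact ⟨A, B, h.symm⟩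
    rw [this]
    exact (Set.finite_range _).bddAbove
  · exact ⟨A, B, rfl⟩

theorem uni_probes {T : ∀ n, Tree Uni.σ n} (hT : IsProbeTest Uni T) (n : ℕ) :
    n ≤ probes Uni T n := (uni_probe hT n).trans (cost_le_probes _ _)

/-- The probe algorithm which always says yes. -/
def yesTree (n : ℕ) : Tree Ord.σ n := Tree.out true

theorem yesTree_test : IsProbeTest Ord yesTree := fun _ A B => by
  simpa [yesTree, Tree.ans] using ord_all A B

theorem yesTree_probes (n : ℕ) : probes Ord yesTree n = 0 := by
  unfold probes
  have : {s : ℕ | ∃ A B : Ord.Mem n, s = (yesTree n).cost A.1 B.1} = {0} := by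
    ext s
    simp only [Set.mem_ofPred_eq, Set.mem_singleton_iff]
    constructor
    · rintro ⟨A, B, rfl⟩
      rfl
    · rintro rfl
      exact ⟨ordMem n, ordMem n, rfl⟩
  rw [this, csSup_singleton]

end Pool.Agent.N38.ISO
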