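import Pool.Agent.N38.ISO.Prb

/-!
# A linear time Turing machine testing isomorphism in `Uni`
-/

set_option autoImplicit false

namespace Pool.Agent.N38.ISO

/-- The states of the machine: a phase and one bit for each of the two structures. -/
abbrev St : Type := Fin 5 × Bool × Bool

/-- The transitions: phase 0 and 2 skip the number of elements, phase 1 and 3 look for a one
in the table. -/
def nxt : St → Sym → St
  | (p, a, b), Sym.sep => if p = 4 then (4, a, b) else (p + 1, a, b)
  | (p, a, b), Sym.zero => (p, a, b)
  | (p, a, b), Sym.one => if p = 1 then (1, true, b) else if p = 3 then (3, a, true) else (p, a, b)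

/-- Phase 4 is final. -/
def hlt : St → Option Bool
  | (p, a, b) => if p = 4 then some (a == b) else none

/-- The scanning machine. -/
def scan : TM where
  Q := St
  Γ := Option Sym
  finQ := inferInstance
  finΓ := inferInstance
  k := 0
  blank := none
  emb := some
  start := (0, false, false)
  halt := hlt
  δ := fun q s => (match s (0 : Fin 1) with
    | some x => nxt q x
    | none => q, s, fun _ => Move.right)

theorem nxt_halt (q : St) (x : Sym) (b : Bool) (h : hlt q = some b) : nxt q x = q := by
  obtain ⟨p, a, c⟩ := q
  unfold hlt at h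
  simp only at h
  split_ifs at h with hp
  subst hp
  cases x <;> simp [nxt]

theorem scan_run (w : List Sym) : ∀ t ≤ w.length,
    (run scan w t).q = (w.take t).foldl nxt (0, false, false) ∧
    (hlt (run scan w t).q = none → (run scan w t).head (0 : Fin 1) = t ∧
      ∀ z, (run scan w t).tape (0 : Fin 1) z = wordTape scan w z) := by
  intro t
  induction t with
  | zero =>
    intro _
    exact ⟨rfl, fun _ => ⟨rfl, fun z => rfl⟩⟩
  | succ t ih =>
    intro ht
    obtain ⟨h1, h2⟩ := ih (by omega)
    have e1 : run scan w (t + 1) = step scan (run scan w t) := Function.iterate_succ_apply' _ _ _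
    rw [e1]
    have ht' : t < w.length := by omega
    have etake : w.take (t + 1) = w.take t ++ [w[t]] := by
      rw [List.take_succ_eq_append_getElem ht']
    rw [etake, List.foldl_append, ← h1]
    generalize run scan w t = c at *
    show (step scan c).q = nxt c.q w[t] ∧ _
    unfold step
    cases hq : hlt c.q with
    | some b =>
      have hq' : scan.halt c.q = some b := hq
      rw [hq']
      simp only
      refine ⟨(nxt_halt _ _ b hq).symm, fun h => ?_⟩
      have h' : hlt c.q = none := h
      rw [hq] at h'
      cases h'
    | none =>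
      have hq' : scan.halt c.q = none := hq
      rw [hq']
      simp only
      obtain ⟨h3, h4⟩ := h2 hq
      have hr : c.read (0 : Fin 1) = some w[t] := by
        show c.tape (0 : Fin 1) (c.head (0 : Fin 1)) = _
        rw [h4, h3]
        unfold wordTape
        rw [if_pos (by omega)]
        simp only [Int.toNat_natCast, List.getElem?_eq_getElem ht', Option.map_some,
          Option.getD_some]
        rfl
      have hδ : (scan.δ c.q c.read).1 = nxt c.q w[t] := by
        show (match c.read (0 : Fin 1) with
          | some x => nxt c.q x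
          | none => c.q) = _
        rw [hr]
      refine ⟨hδ, fun _ => ⟨?_, fun z => ?_⟩⟩
      · show c.head (0 : Fin 1) + 1 = _
        rw [h3]
        push_cast
        ring
      · show (if z = c.head (0 : Fin 1) then c.read (0 : Fin 1) else c.tape (0 : Fin 1) z) = _
        split_ifs with hz
        · rw [hz]
          exact h4 _
        · exact h4 z

theorem fold_one (p : Fin 5) (a b : Bool) (hp : p = 0 ∨ p = 2) (n : ℕ) :
    (List.replicate n Sym.one).foldl nxt (p, a, b) = (p, a, b) := by
  induction n with
  | zero => rfl
  | succ n ih =>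
    rw [List.replicate_succ, List.foldl_cons]
    have : nxt (p, a, b) Sym.one = (p, a, b) := by
      rcases hp with rfl | rfl <;> rfl
    rw [this, ih]

theorem fold_bit1 (l : List Bool) (a b : Bool) :
    (l.map bit).foldl nxt (1, a, b) = (1, a || l.any id, b) := by
  induction l generalizing a with
  | nil => simp
  | cons x l ih =>
    rw [List.map_cons, List.foldl_cons]
    cases x
    · show List.foldl nxt (1, a, b) _ = _
      rw [ih]; simp
    · show List.foldl nxt (1, true, b) _ = _
      rw [ih]; simp

theorem fold_bit3 (l : List Bool) (a b : Bool) :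
    (l.map bit).foldl nxt (3, a, b) = (3, a, b || l.any id) := by
  induction l generalizing b with
  | nil => simp
  | cons x l ih =>
    rw [List.map_cons, List.foldl_cons]
    cases x
    · show List.foldl nxt (3, a, b) _ = _
      rw [ih]; simp
    · show List.foldl nxt (3, a, true) _ = _
      rw [ih]; simp

/-- The table of the unary relation as a list of bits. -/
def tbl {n : ℕ} (A : Tab uniSig n) : List Bool :=
  List.ofFn (fun j : Fin (n ^ 1) => A.rel (0 : Fin 1) (finFunctionFinEquiv.symm j))

theorem code_uni {n : ℕ} (A : Tab uniSig n) :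
    code A = List.replicate n Sym.one ++ [Sym.sep] ++ ((tbl A).map bit ++ [Sym.sep]) := by
  have h1 : (List.ofFn (fun i : Fin uniSig.nrel => relCode (A.rel i))).flatten =
      relCode (A.rel (0 : Fin 1)) := by
    show (List.ofFn (fun i : Fin 1 => relCode (A.rel i))).flatten = _
    simp
  have h2 : (List.ofFn (fun i : Fin uniSig.nfun => funCode (A.fn i))).flatten = [] := by
    show (List.ofFn (fun i : Fin 0 => _)).flatten = []
    simp
  unfold code
  rw [h1, h2, List.append_nil]
  unfold una relCode tbl
  rw [List.map_ofFn]
  rfl

theorem any_tbl {n : ℕ} (A : Tab uniSig n) : (tbl A).any id = true ↔ ∃ x, uniP A x := by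
  unfold tbl
  rw [List.any_eq_true]
  constructor
  · rintro ⟨x, hx, hx2⟩
    rw [List.mem_ofFn] at hx
    obtain ⟨j, rfl⟩ := hx
    refine ⟨(finFunctionFinEquiv.symm j) (0 : Fin 1), ?_⟩
    have : (![(finFunctionFinEquiv.symm j) (0 : Fin 1)] : Fin 1 → Fin n) =
        finFunctionFinEquiv.symm j := by
      funext i
      fin_cases i
      rfl
    unfold uniP
    rw [this]
    exact hx2
  · rintro ⟨x, hx⟩
    refine ⟨true, ?_, rfl⟩
    rw [List.mem_ofFn]
    refine ⟨finFunctionFinEquiv (![x] : Fin 1 → Fin n), ?_⟩
    have e : finFunctionFinEquiv.symm (finFunctionFinEquiv (![x] : Fin 1 → Fin n)) = ![x] :=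
      Equiv.symm_apply_apply _ _
    exact (congrArg (fun y : Fin 1 → Fin n => A.rel (0 : Fin 1) y) e).trans hx

theorem fold_input {n : ℕ} (A B : Tab uniSig n) :
    (input A B).foldl nxt (0, false, false) = (4, (tbl A).any id, (tbl B).any id) := by
  unfold input
  rw [code_uni, code_uni]
  simp only [List.foldl_append, List.foldl_cons, List.foldl_nil]
  rw [fold_one 0 _ _ (Or.inl rfl)]
  show nxt (List.foldl nxt (nxt (List.foldl nxt (nxt (List.foldl nxt (1, false, false) _) _) _) _) _) _ = _
  rw [fold_bit1]
  show nxt (List.foldl nxt (nxt (List.foldl nxt (2, false || (tbl A).any id, false) _) _) _) _ = _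
  rw [fold_one 2 _ _ (Or.inr rfl)]
  show nxt (List.foldl nxt (3, false || (tbl A).any id, false) _) _ = _
  rw [fold_bit3]
  show (4, false || (tbl A).any id, false || (tbl B).any id) = _
  simp

theorem scan_halts {n : ℕ} (A B : Tab uniSig n) :
    HaltsWith scan (input A B) (input A B).length ((tbl A).any id == (tbl B).any id) := by
  have h := (scan_run (input A B) _ le_rfl).1
  rw [List.take_length, fold_input] at h
  unfold HaltsWith
  rw [h]
  rfl

theorem scan_test : IsTest Uni scan := fun n A B => by
  refine ⟨_, _, scan_halts A.1 B.1, ?_⟩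
  rw [uni_iff, beq_iff_eq, Bool.eq_iff_iff]
  exact iff_congr (any_tbl A.1) (any_tbl B.1)

theorem length_input {n : ℕ} (A B : Tab uniSig n) : (input A B).length = 4 * n + 4 := by
  unfold input
  rw [code_uni, code_uni]
  simp [tbl]
  ring

/-- The scanning machine needs at most `4 n + 4` steps. -/
theorem scan_worst (n : ℕ) : worst Uni scan n ≤ 4 * n + 4 := by
  unfold worst
  apply csSup_le
  · exact ⟨_, uniE n, uniE n, rfl⟩
  · rintro s ⟨A, B, rfl⟩
    exact Nat.sInf_le ⟨_, (length_input A.1 B.1) ▸ scan_halts A.1 B.1⟩

end Pool.Agent.N38.ISO
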