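import Pool.Agent.N38.ISO.Cnt

/-!
# Turing machines: a machine stopping early cannot see the tables
-/

set_option autoImplicit false

namespace Pool.Agent.N38.ISO

instance finite_tab (σ : Sig) (n : ℕ) : Finite (Tab σ n) :=
  Finite.of_injective (fun A : Tab σ n => (A.rel, A.fn)) (fun _ _ h => by
    have h' := Prod.mk.inj h
    exact Tab.ext h'.1 h'.2)

instance finite_mem (L : FOClass) (n : ℕ) : Finite (L.Mem n) :=
  inferInstanceAs (Finite {A : Tab L.σ n // _})

/-- Two runs on words with the same first `n` letters agree during `n` steps. -/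
theorem run_agree (M : TM) (w w' : List Sym) (n : ℕ) (hw : ∀ i < n, w[i]? = w'[i]?) :
    ∀ t ≤ n, (run M w t).q = (run M w' t).q ∧ (run M w t).head = (run M w' t).head ∧
      (∀ i, (run M w t).head i ≤ t) ∧
      (∀ i (z : ℤ), z < n → (run M w t).tape i z = (run M w' t).tape i z) := by
  intro t
  induction t with
  | zero =>
    intro _
    refine ⟨rfl, rfl, fun i => le_refl _, fun i z hz => ?_⟩
    show (if i = 0 then wordTape M w z else M.blank) = (if i = 0 then wordTape M w' z else M.blank)
    split_ifs
    · unfold wordTape
      split_ifs with h0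
      · rw [hw z.toNat (by omega)]
      · rfl
    · rfl
  | succ t ih =>
    intro ht
    obtain ⟨h1, h2, h3, h4⟩ := ih (by omega)
    have e1 : run M w (t + 1) = step M (run M w t) := Function.iterate_succ_apply' _ _ _
    have e2 : run M w' (t + 1) = step M (run M w' t) := Function.iterate_succ_apply' _ _ _
    rw [e1, e2]
    generalize run M w t = c at *
    generalize run M w' t = c' at *
    have hread : c.read = c'.read := by
      funext i
      show c.tape i (c.head i) = c'.tape i (c'.head i)
      rw [← h2]
      exact h4 i _ (by have := h3 i; omega)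
    unfold step
    rw [← h1]
    cases hq : M.halt c.q with
    | some b =>
      simp only
      exact ⟨h1, h2, fun i => by have := h3 i; push_cast; omega, h4⟩
    | none =>
      simp only
      rw [← hread]
      refine ⟨rfl, ?_, ?_, ?_⟩
      · rw [h2]
      · intro i
        have := h3 i
        push_cast
        cases (M.δ c.q c.read).2.2 i <;> simp only [Move.d] <;> omega
      · intro i z hz
        rw [h2]
        split_ifs
        · rfl
        · exact h4 i z hz

/-- Halting configurations do not change. -/
theorem halts_mono (M : TM) (w : List Sym) {t t' : ℕ} (h : t ≤ t') {b : Bool}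
    (hb : HaltsWith M w t b) : HaltsWith M w t' b := by
  induction t', h using Nat.le_induction with
  | base => exact hb
  | succ s hs ih =>
    unfold HaltsWith at ih ⊢
    have e1 : run M w (s + 1) = step M (run M w s) := Function.iterate_succ_apply' _ _ _
    rw [e1]
    unfold step
    rw [ih]
    simp only
    exact ih

theorem input_get {σ : Sig} {n : ℕ} (A B : Tab σ n) (i : ℕ) (hi : i < n) :
    (input A B)[i]? = some Sym.one := by
  unfold input code una
  simp only [List.append_assoc]
  rw [List.getElem?_append_left (by simpa using hi)]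
  simp [hi]

/-- The steps of a test are at most the worst case. -/
theorem steps_le_worst {L : FOClass} {M : TM} {n : ℕ} (A B : L.Mem n) :
    steps M (input A.1 B.1) ≤ worst L M n := by
  apply le_csSup
  · have : {s : ℕ | ∃ A B : L.Mem n, s = steps M (input A.1 B.1)} =
        Set.range (fun p : L.Mem n × L.Mem n => steps M (input p.1.1 p.2.1)) := by
      ext s
      simp only [Set.mem_ofPred_eq, Set.mem_range, Prod.exists]
      constructor
      · rintro ⟨A, B, h⟩; exact ⟨A, B, h.symm⟩
      · rintro ⟨A, B, h⟩; exact ⟨A, B, h.symm⟩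
    rw [this]
    exact (Set.finite_range _).bddAbove
  · exact ⟨A, B, rfl⟩

/-- A test stopping after at most `n` steps on all pairs of `n`-element members gives the
same answer on all these pairs. -/
theorem const_of_worst {L : FOClass} {M : TM} (hM : IsTest L M) {n : ℕ}
    (hn : worst L M n ≤ n) (A B C D : L.Mem n) : Iso A.1 B.1 ↔ Iso C.1 D.1 := by
  have key : ∀ A B : L.Mem n, ∃ b : Bool, HaltsWith M (input A.1 B.1) n b ∧
      (b = true ↔ Iso A.1 B.1) := by
    intro A B
    obtain ⟨t, b, h1, h2⟩ := hM n A B
    have hs : ∃ b : Bool, HaltsWith M (input A.1 B.1) (steps M (input A.1 B.1)) b :=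
      Nat.sInf_mem (s := {t : ℕ | ∃ b : Bool, HaltsWith M (input A.1 B.1) t b}) ⟨t, b, h1⟩
    obtain ⟨b', hb'⟩ := hs
    have hle := (steps_le_worst (M := M) A B).trans hn
    have h3 := halts_mono M _ (le_max_left t (steps M (input A.1 B.1))) h1
    have h4 := halts_mono M _ (le_max_right t (steps M (input A.1 B.1))) hb'
    have : b = b' := by
      unfold HaltsWith at h3 h4
      rw [h3] at h4
      exact Option.some.inj h4
    subst this
    exact ⟨b, halts_mono M _ hle hb', h2⟩
  obtain ⟨b, hb, hb2⟩ := key A B
  obtain ⟨c, hc, hc2⟩ := key C D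
  have := (run_agree M (input A.1 B.1) (input C.1 D.1) n (fun i hi => by
    rw [input_get _ _ i hi, input_get _ _ i hi]) n le_rfl).1
  unfold HaltsWith at hb hc
  rw [← this, hb] at hc
  have h5 := Option.some.inj hc
  rw [← hb2, ← hc2, h5]

/-- Every Turing machine testing isomorphism in `Uni` needs more than `n` steps. -/
theorem uni_lower {M : TM} (hM : IsTest Uni M) {n : ℕ} (hn : 1 ≤ n) : n < worst Uni M n := by
  by_contra h
  push Not at h
  obtain ⟨m, rfl⟩ : ∃ m, n = m + 1 := ⟨n - 1, by omega⟩
  have h1 := const_of_worst hM h (uniE (m + 1)) (uniE (m + 1)) (uniO 0) (uniE (m + 1))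
  rw [uni_iff, uni_iff] at h1
  have h2 := (h1.1 Iff.rfl).1 ⟨0, (uniTab_P _ _).2 rfl⟩
  obtain ⟨x, hx⟩ := h2
  exact (uniTab_P _ _).1 hx

instance : Finite Sym :=
  Finite.of_injective (β := Fin 3) (fun s => match s with
    | Sym.zero => 0
    | Sym.one => 1
    | Sym.sep => 2) (by
      intro a b h
      cases a <;> cases b <;> first | rfl | (exfalso; revert h; decide))

/-- The machine answering yes after one step. -/
def yes : TM where
  Q := Bool
  Γ := Option Sym
  finQ := inferInstance
  finΓ := inferInstance
  k := 0
  blank := none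
  emb := some
  start := false
  halt := fun q => if q then some true else none
  δ := fun _ s => (true, s, fun _ => Move.stay)

theorem yes_run (w : List Sym) : HaltsWith yes w 1 true := by
  unfold HaltsWith run
  rw [Function.iterate_one]
  rfl

theorem yes_steps (w : List Sym) : steps yes w = 1 := by
  unfold steps
  apply le_antisymm
  · exact Nat.sInf_le ⟨true, yes_run w⟩
  · have hm := Nat.sInf_mem (s := {t : ℕ | ∃ b : Bool, HaltsWith yes w t b}) ⟨1, true, yes_run w⟩
    by_contra h
    have h0 : sInf {t : ℕ | ∃ b : Bool, HaltsWith yes w t b} = 0 := by omega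
    rw [h0] at hm
    obtain ⟨b, hb⟩ := hm
    have : (none : Option Bool) = some b := hb
    cases this

theorem yes_test : IsTest Ord yes := fun _ A B => ⟨1, true, yes_run _, by
  simpa using ord_all A B⟩

theorem yes_worst (n : ℕ) : worst Ord yes n = 1 := by
  unfold worst
  have : {s : ℕ | ∃ A B : Ord.Mem n, s = steps yes (input A.1 B.1)} = {1} := by
    ext s
    simp only [Set.mem_ofPred_eq, Set.mem_singleton_iff]
    constructor
    · rintro ⟨A, B, rfl⟩
      exact yes_steps _
    · rintro rfl
      exact ⟨ordMem n, ordMem n, (yes_steps _).symm⟩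
  rw [this, csSup_singleton]

end Pool.Agent.N38.ISO
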